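import Pool.Agent.Helper919_DQ.Book

set_option autoImplicit false

/-!
# A `Δ`-set whose square is not a `Δ`-set

There is a forcing notion with the countable chain condition which forces that some set `X` of
`ℵ₁` points of the Cantor space is a `Q`-set and a `Δ`-set, while `X × X` is not a `Δ`-set.
-/

namespace Pool.Agent.Results.MP_d5ec8b_lc.DeltaSquare

open Pool.Agent.Helper919.DQ

theorem result : ∃ (P : Type) (_ : Preorder P), Nonempty P ∧ CCC P ∧
    ∃ x : W → ℕ → Set P, ∀ p : P, p ∈ Distinct x ∧ p ∈ QSet x ∧ p ∈ DeltaSet x ∧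
      p ∈ fnot (DeltaSq x) := main

end Pool.Agent.Results.MP_d5ec8b_lc.DeltaSquare
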